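import Pool.Agent.W552.IrrConv

open CategoryTheory AlgebraicGeometry

universe u v w

namespace Pool.Agent.Results.MP_ffcd14_ag.IrreducibleEigenspaces

open Pool.Agent.H914 Pool.Agent.H914.VarClass Pool.Agent.H914.VarClass.Obj
  Pool.Agent.H281R3.HT Pool.Agent.W552

/-- **Varieties over a finite field whose Frobenius eigenspaces are irreducible**: let `P` be a
family of polarized varieties with Frobenius endomorphisms `f` and let, for every member, a group
of algebraic similitudes of the cohomology contain `f^*` as a central element generating a subgroup
of finite index and act irreducibly on every generalized eigenspace of `f^*` on the primitive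
transcendental cohomology; the eigenvalues on these spaces are different up to roots of unity and
powers of `q`. Then the standard conjecture of Hodge type for the members is equivalent to the
standard conjectures of Hodge type and `D` for the products of two members, and, if the members
satisfy the Tate conjecture and there are no exotic relations between the eigenvalues, to the two
conjectures for all products of members. -/
theorem result {k : Type u} [Field k] {𝒱 : VarClass k} {ops : CycleOps 𝒱}
    (W : WeilCohomology.{u, v} ops) [IsAlgClosed W.K] {ι : Type w} (P : ι → Polarized 𝒱)
    (f : ∀ s, (P s).X ⟶ (P s).X) (q : ℕ) (h : IsFrobFamily W P f q)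
    (hI : ∀ s, IrrFrob W (P s) (f s) q) (hS : SeparatedSpectrum W P f q) :
    ((∀ s, HodgeType W (P s).X (P s).D) ↔ ∀ s t, HodgeAndD W ((P s).prod ops (P t))) ∧
    ((∀ s, TateConj W (P s) (f s) q) → NoExoticSpectrum W P f q →
      ((∀ s, HodgeType W (P s).X (P s).D) ↔
        ∀ (n : ℕ) (a : Fin (n + 1) → ι), HodgeAndD W (nest ops n (fun i => P (a i))))) :=
  irr_main h hI hS

end Pool.Agent.Results.MP_ffcd14_ag.IrreducibleEigenspaces
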