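import Pool.Agent.W552.Main

open CategoryTheory AlgebraicGeometry

universe u v

namespace Pool.Agent.Results.MP_ffcd14_ag.PairwiseProducts

open Pool.Agent.H914 Pool.Agent.H914.VarClass Pool.Agent.H914.VarClass.Obj
  Pool.Agent.H281R3.HT Pool.Agent.W552

/-- **The standard conjecture of Hodge type passes from products of two factors to products of
several factors, on the classes generated by pairs of factors**: let `P 0, ..., P n` be polarized
varieties satisfying hard Lefschetz and the Lefschetz standard conjecture, such that the standard
conjecture of Hodge type holds for all `P a` and for all products `P a × P b` (including the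
squares `P a × P a`). Then the standard conjectures of Hodge type and `D` hold for all cycles on
`Y = P 0 × (P 1 × (⋯ × P n))` whose class is a linear combination of products of pull-backs of
algebraic classes from the factors and from the products of two factors, no factor being used
twice in a product. -/
theorem result {k : Type u} [Field k] {𝒱 : VarClass k} {ops : CycleOps 𝒱}
    (W : WeilCohomology.{u, v} ops) {n : ℕ} (P : Fin (n + 1) → Polarized 𝒱)
    (hD : ∀ a, (P a).X.IsCyc 1 (P a).D) (hHL : ∀ a, HardLefschetz W (P a).X (P a).D)
    (hB : ∀ a, LefschetzB W (P a).X (P a).D)
    (hH : ∀ a, HodgeType W (P a).X (P a).D)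
    (hH2 : ∀ a b, HodgeType W ((P a).prod ops (P b)).X ((P a).prod ops (P b)).D) :
    HodgeTypeOn W (nest ops n P).X (nest ops n P).D (matchingSpan W P) ∧
      HomEqNumOn W (nest ops n P).X (matchingSpan W P) :=
  hodge_matching hD hHL hB hH hH2

end Pool.Agent.Results.MP_ffcd14_ag.PairwiseProducts
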