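import Pool.Agent.W539.Ker.Final

open CategoryTheory AlgebraicGeometry

universe u v

namespace Pool.Agent.Results.MP_ffcd14_ag.SignatureKernel

open Pool.Agent.H914 Pool.Agent.H914.VarClass Pool.Agent.H914.VarClass.Obj
  Pool.Agent.H281R3.HT Pool.Agent.W539.Ker

/-- **The signatures of the pairings of the standard conjecture of Hodge type on the products
`X_a × X_b` form a positive semidefinite matrix.** Let `X_1, …, X_N` be varieties with divisors
which satisfy hard Lefschetz and the Lefschetz standard conjecture (no Hodge type hypothesis).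
(1) The signatures are well defined (the numbers of orthogonal vectors are bounded).
(2) For every `x` in `[-1, 1]` the real symmetric matrix with the entries
`∑ n, sig_n (X_a × X_b) * U_(d_a + d_b - 2 n) (x)` is positive semidefinite.
(3) For every `m ≤ d = dim X_a` the sum of the signatures in the codimensions `m, …, d` on
`X_a × X_a` is nonnegative. -/
theorem result {k : Type u} [Field k] {𝒱 : VarClass k} {ops : CycleOps 𝒱}
    (W : WeilCohomology.{u, v} ops) {N : ℕ} (P : Fin N → Polarized 𝒱)
    (hD : ∀ a, (P a).X.IsCyc 1 (P a).D) (hHL : ∀ a, HardLefschetz W (P a).X (P a).D)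
    (hB : ∀ a, LefschetzB W (P a).X (P a).D) :
    (∀ a b n, 2 * n ≤ (P a).X.dim + (P b).X.dim →
      BddAbove {r | HasFamily W ((P a).prod ops (P b)).X ((P a).prod ops (P b)).D n 1 r} ∧
      BddAbove {r | HasFamily W ((P a).prod ops (P b)).X ((P a).prod ops (P b)).D n (-1) r}) ∧
    (∀ x ∈ Set.Icc (-1 : ℝ) 1,
      (Matrix.of fun a b => sigKernel W (P a) (P b) x).PosSemidef) ∧
    (∀ a, ∀ m ≤ (P a).X.dim, 0 ≤ ∑ n ∈ Finset.Icc m (P a).X.dim,
      sig W ((P a).prod ops (P a)).X ((P a).prod ops (P a)).D n) := by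
  refine ⟨fun a b n hn => ?_, fun x hx => posSemidef P hD hHL hB hx,
    fun a m hm => partial_sums (hD a) (hHL a) (hB a) hm⟩
  exact bddAbove_family W (SmVar.IsCyc.add (ops.pull_mem _ (hD a)) (ops.pull_mem _ (hD b))) hn

end Pool.Agent.Results.MP_ffcd14_ag.SignatureKernel
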